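import Pool.Agent.MP_993212_an.H35.AppA

/-! The engine applied to the ring of block matrices attached to a strong shift equivalence. -/

namespace Pool.Agent.MP_993212_an.H35

open Matrix H16 H46

section Blocks

variable {m n : Type} [Fintype m] [Fintype n] (X Y : Matrix (m ⊕ n) (m ⊕ n) ℤ)

theorem t11 : (X * Y).toBlocks₁₁ = X.toBlocks₁₁ * Y.toBlocks₁₁ + X.toBlocks₁₂ * Y.toBlocks₂₁ := by
  ext i j; simp [Matrix.mul_apply, toBlocks₁₁, toBlocks₁₂, toBlocks₂₁]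

theorem t12 : (X * Y).toBlocks₁₂ = X.toBlocks₁₁ * Y.toBlocks₁₂ + X.toBlocks₁₂ * Y.toBlocks₂₂ := by
  ext i j; simp [Matrix.mul_apply, toBlocks₁₁, toBlocks₁₂, toBlocks₂₂]

theorem t21 : (X * Y).toBlocks₂₁ = X.toBlocks₂₁ * Y.toBlocks₁₁ + X.toBlocks₂₂ * Y.toBlocks₂₁ := by
  ext i j; simp [Matrix.mul_apply, toBlocks₁₁, toBlocks₂₁, toBlocks₂₂]

theorem t22 : (X * Y).toBlocks₂₂ = X.toBlocks₂₁ * Y.toBlocks₁₂ + X.toBlocks₂₂ * Y.toBlocks₂₂ := by
  ext i j; simp [Matrix.mul_apply, toBlocks₁₂, toBlocks₂₁, toBlocks₂₂]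

theorem sz_blocks : sz X = sz X.toBlocks₁₁ + sz X.toBlocks₁₂ + (sz X.toBlocks₂₁ + sz X.toBlocks₂₂) := by
  simp [sz, Finset.sum_add_distrib, toBlocks₁₁, toBlocks₁₂, toBlocks₂₁, toBlocks₂₂]
  ring

end Blocks

section Ring

variable {ι : Type} [Fintype ι] [DecidableEq ι]

/-- matrices that commute with `C` and have support in the support of `Z` -/
def LL (C : Matrix ι ι ℤ) (Z : Matrix ι ι ℕ) (h1 : Sb (1 : Matrix ι ι ℤ) Z) (h2 : Sb (Z * Z) Z) :
    Subring (Matrix ι ι ℤ) where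
  carrier := {X | X * C = C * X ∧ Sb X Z}
  mul_mem' := fun {a b} ha hb =>
    ⟨by rw [mul_assoc, hb.1, ← mul_assoc, ha.1, mul_assoc], (ha.2.mul hb.2).trans h2⟩
  one_mem' := ⟨by simp, h1⟩
  add_mem' := fun {a b} ha hb => ⟨by rw [add_mul, mul_add, ha.1, hb.1], ha.2.add hb.2⟩
  zero_mem' := ⟨by simp, Sb.zero⟩
  neg_mem' := fun {a} ha => ⟨by rw [neg_mul, mul_neg, ha.1], fun u v h => ha.2 u v (by simpa using h)⟩

theorem gens {F : ℕ → ℕ}
    (hF : ∀ (α β : Type) [Fintype α] [Fintype β] (S : Matrix α β ℤ) (N : ℕ),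
      Fintype.card α ≤ N → Fintype.card β ≤ N → sz S ≤ N →
      ∃ (s : ℕ) (K : Fin s → β → ℤ), s ≤ F N ∧ (∀ j, vs (K j) ≤ F N) ∧ (∀ j, S *ᵥ K j = 0) ∧
        ∀ x, S *ᵥ x = 0 → x ∈ Submodule.span ℤ (Set.range K))
    (C : Matrix ι ι ℤ) (Z : Matrix ι ι ℕ) (h1 : Sb (1 : Matrix ι ι ℤ) Z) (h2 : Sb (Z * Z) Z)
    {M : ℕ} (hι : Fintype.card ι ≤ M) (hC : sz C ≤ M) :
    ∃ (s : ℕ) (a : Fin s → LL C Z h1 h2), s ≤ F ((M * M + M * M) * (M * M * (M + M + 1) + 1)) ∧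
      (∀ i, sz (a i : Matrix ι ι ℤ) ≤ F ((M * M + M * M) * (M * M * (M + M + 1) + 1))) ∧
      ∀ x, x ∈ Submodule.span ℤ (Set.range a) := by
  let S : Matrix ((ι × ι) ⊕ (ι × ι)) (ι × ι) ℤ := Matrix.of fun r e =>
    Sum.elim (fun p : ι × ι => (if e.1 = p.1 then C e.2 p.2 else 0) -
        (if e.2 = p.2 then C p.1 e.1 else 0))
      (fun p : ι × ι => if Z p.1 p.2 = 0 ∧ e = p then 1 else 0) r
  have hS : ∀ X : Matrix ι ι ℤ, S *ᵥ (fun e => X e.1 e.2) = 0 ↔ X ∈ LL C Z h1 h2 := by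
    intro X
    have e1 : ∀ p : ι × ι, (S *ᵥ fun e => X e.1 e.2) (.inl p) = (X * C - C * X) p.1 p.2 := by
      intro p
      simp only [S, mulVec, dotProduct, of_apply, Sum.elim_inl, sub_mul, Finset.sum_sub_distrib,
        Fintype.sum_prod_type, ite_mul, zero_mul, Matrix.sub_apply, Matrix.mul_apply]
      congr 1
      · rw [Finset.sum_comm]
        simp [mul_comm]
      · simp
    have e2 : ∀ p : ι × ι, (S *ᵥ fun e => X e.1 e.2) (.inr p) =
        if Z p.1 p.2 = 0 then X p.1 p.2 else 0 := by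
      intro p
      simp only [S, mulVec, dotProduct, of_apply, Sum.elim_inr, ite_mul, zero_mul, one_mul]
      by_cases h : Z p.1 p.2 = 0 <;> simp [h]
    constructor
    · intro h
      refine ⟨sub_eq_zero.1 (Matrix.ext fun u v => ?_), fun u v hx h0 => hx ?_⟩
      · rw [← e1 (u, v), h]; rfl
      · have := e2 (u, v)
        rw [h, if_pos h0] at this
        exact this.symm
    · rintro ⟨h3, h4⟩
      funext r
      rcases r with p | p
      · rw [e1, h3, sub_self]; rfl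
      · rw [e2]
        split_ifs with h0
        · by_contra hx; exact h4 _ _ hx h0
        · rfl
  have c2 : Fintype.card (ι × ι) ≤ M * M := by
    rw [Fintype.card_prod]; exact Nat.mul_le_mul hι hι
  have c1 : Fintype.card ((ι × ι) ⊕ (ι × ι)) ≤ M * M + M * M := by
    rw [Fintype.card_sum]; exact Nat.add_le_add c2 c2
  have c3 : sz S ≤ (M * M + M * M) * (M * M * (M + M + 1) + 1) := by
    refine (sz_le_of (c := M + M + 1) fun r e => ?_).trans
      (Nat.mul_le_mul c1 ((Nat.mul_le_mul_right _ c2).trans (Nat.le_succ _)))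
    rcases r with p | p
    · simp only [S, of_apply, Sum.elim_inl]
      refine (Int.natAbs_sub_le _ _).trans ?_
      have a1 := (le_sz C e.2 p.2).trans hC
      have a2 := (le_sz C p.1 e.1).trans hC
      split_ifs <;> simp <;> omega
    · simp only [S, of_apply, Sum.elim_inr]
      split_ifs <;> simp
  obtain ⟨s, K, hs, hK, hK0, hK1⟩ := hF _ _ S ((M * M + M * M) * (M * M * (M + M + 1) + 1))
    (c1.trans (Nat.le_mul_of_pos_right _ (Nat.succ_pos _)))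
    ((c2.trans (Nat.le_add_right _ _)).trans (Nat.le_mul_of_pos_right _ (Nat.succ_pos _))) c3
  refine ⟨s, fun j => ⟨Matrix.of fun u v => K j (u, v), (hS _).1 (hK0 j)⟩, hs, fun j => ?_,
    fun x => ?_⟩
  · refine le_trans (le_of_eq ?_) (hK j)
    simp [sz, vs, Fintype.sum_prod_type]
  · obtain ⟨c, hc⟩ := (Submodule.mem_span_range_iff_exists_fun ℤ).1 (hK1 _ ((hS x).2 x.2))
    refine (Submodule.mem_span_range_iff_exists_fun ℤ).2 ⟨c, Subtype.ext ?_⟩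
    ext u v
    have := congrFun hc (u, v)
    simp only [Finset.sum_apply, Pi.smul_apply] at this
    rw [← this, AddSubmonoidClass.coe_finsetSum, Matrix.sum_apply]
    rfl

end Ring

theorem app : ENG → KER → B2 → P2 → BND := by
  rintro ⟨FE, hFE, hE⟩ ⟨FK, hFK, hK⟩ hB ⟨g, hg1, hg2, hg⟩
  have pP : PB fun M => ((1 + 1) ^ (M * M)).factorial :=
    ((PB.const 1).pow (PB.id.mul PB.id)).fact
  have pN : PB fun M => M + FK ((M * M + M * M) * (M * M * (M + M + 1) + 1)) +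
      (M + 1) ^ (((1 + 1) ^ (M * M)).factorial + 1) +
      (g (M + M * (M * (M + 1) ^ (M + 1))) + 1) ^ (M + 1) ^ (M + 2) := by
    have a1 : PB fun M => M * M := PB.id.mul PB.id
    have a2 : PB fun M => M + 1 := PB.id.add (PB.const 1)
    exact ((PB.id.add (hFK.comp ((a1.add a1).mul
      ((a1.mul ((PB.id.add PB.id).add (PB.const 1))).add (PB.const 1))))).add
      (PB.id.pow (pP.add (PB.const 1)))).add
      ((PB.comp ⟨hg1, hg2⟩ (PB.id.add (PB.id.mul (PB.id.mul (PB.id.pow a2))))).pow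
        (PB.id.pow (PB.id.add (PB.const 2))))
  have pF := ((hFE.comp pN).add (pN.mul (hFE.comp pN))).add
    (pP.mul ((hFE.comp pN).add (PB.const 1)))
  refine ⟨_, pF.1, fun n m A B hAB => ?_⟩
  simp only [one_add_one_eq_two]
  generalize hM : n + m + sz (zz A) + sz (zz B) = M
  have sA : Stab A (2 ^ (M * M)).factorial := stab A (by simp; omega)
  have sB : Stab B (2 ^ (M * M)).factorial := stab B (by simp; omega)
  have hfac : n.factorial ∣ (2 ^ (M * M)).factorial := by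
    refine Nat.factorial_dvd_factorial ?_
    have h1 := Nat.le_mul_self M
    have h2 : M * M < 2 ^ (M * M) := Nat.lt_two_pow_self
    omega
  have hP1 : 1 ≤ (2 ^ (M * M)).factorial := Nat.factorial_pos _
  generalize (2 ^ (M * M)).factorial = P at sA sB hfac hP1
  obtain ⟨col, hcol, hcol'⟩ := colour hB hg2 hg A sA hP1 hfac (M := M) (by omega) (by omega)
  obtain ⟨R0, S0, r, hch, hS0, hRS, hSR⟩ : ∃ (R0 : Matrix (Fin n) (Fin m) ℕ)
      (S0 : Matrix (Fin m) (Fin n) ℕ) (r : ℕ), Ch A B R0 ∧ B * S0 = S0 * A ∧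
      R0 * S0 = A ^ (P * r) ∧ S0 * R0 = B ^ (P * r) := by
    obtain ⟨T, hT⟩ := exists_ch_of_sse hAB
    obtain ⟨T', r, hT', e1, e2⟩ := hT.rev
    obtain ⟨c, hc⟩ : ∃ c, P * r = c + r := ⟨P * r - r, by
      have := Nat.mul_le_mul_right r hP1
      omega⟩
    refine ⟨A ^ c * T, T', r, (Ch.pow A c).trans hT, hT'.inter, ?_, ?_⟩
    · rw [Matrix.mul_assoc, e1, hc, pow_add]
    · rw [hT.inter_pow, ← Matrix.mul_assoc, e2, hc, add_comm, pow_add]
  have iR : ∀ k, A ^ k * R0 = R0 * B ^ k := hch.inter_pow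
  have iS : ∀ k, B ^ k * S0 = S0 * A ^ k := H12.pow_inter hS0
  have q1 : ∀ i, A ^ P * R0 * B ^ i * (S0 * A ^ P) = A ^ (P * (r + 1 + 1) + i) := fun i => by
    rw [Matrix.mul_assoc (A ^ P), ← iR, Matrix.mul_assoc, Matrix.mul_assoc, ← Matrix.mul_assoc R0,
      hRS, ← pow_add, ← pow_add, ← pow_add]
    congr 1; ring
  have q2 : ∀ i, S0 * A ^ P * A ^ i * (A ^ P * R0) = B ^ (P * (r + 1 + 1) + i) := fun i => by
    rw [Matrix.mul_assoc, Matrix.mul_assoc, ← Matrix.mul_assoc (A ^ i), ← Matrix.mul_assoc (A ^ P),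
      ← pow_add, ← pow_add, iR, ← Matrix.mul_assoc, hSR, ← pow_add]
    congr 1; ring
  have q1' : A ^ P * R0 * (S0 * A ^ P) = A ^ (P * (r + 1 + 1)) := by simpa using q1 0
  have q2' : S0 * A ^ P * (A ^ P * R0) = B ^ (P * (r + 1 + 1)) := by simpa using q2 0
  let C : Matrix (Fin n ⊕ Fin m) (Fin n ⊕ Fin m) ℤ := fromBlocks (zz A) 0 0 (zz B)
  let Z : Matrix (Fin n ⊕ Fin m) (Fin n ⊕ Fin m) ℕ :=
    fromBlocks (1 + A ^ P) (A ^ P * R0) (S0 * A ^ P) (1 + B ^ P)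
  have one1 : ∀ {k : ℕ} (D : Matrix (Fin k) (Fin k) ℕ), Sb (1 : MZ k) (1 + D) := fun D => by
    rw [← zz_one]; exact Sb.left.zz
  have h1 : Sb (1 : Matrix (Fin n ⊕ Fin m) (Fin n ⊕ Fin m) ℤ) Z := by
    rw [← fromBlocks_one]
    exact Sb.blocks.2 ⟨one1 _, Sb.zero, Sb.zero, one1 _⟩
  have h2 : Sb (Z * Z) Z := by
    have sq : ∀ {k : ℕ} {D : Matrix (Fin k) (Fin k) ℕ}, Stab D P →
        Sb ((1 + D ^ P) * (1 + D ^ P)) (1 + D ^ P) := fun {k D} h => by
      rw [add_mul, one_mul]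
      exact Sb.rfl.add (h.absorb.trans Sb.right)
    simp only [Z, fromBlocks_multiply]
    refine Sb.blocks.2 ⟨(sq sA).add ?_, Sb.add ?_ ?_, Sb.add ?_ ?_, Sb.add ?_ (sq sB)⟩
    · rw [q1']; exact (sA.sb _).trans Sb.right
    · rw [← Matrix.mul_assoc]; exact sA.absorb'.mul Sb.rfl
    · rw [iR, Matrix.mul_assoc]; exact Sb.rfl.mul sB.absorb
    · rw [Matrix.mul_assoc]; exact Sb.rfl.mul sA.absorb
    · rw [← iS, ← Matrix.mul_assoc]; exact sB.absorb'.mul Sb.rfl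
    · rw [q2']; exact (sB.sb _).trans Sb.right
  have hι : Fintype.card (Fin n ⊕ Fin m) ≤ M := by simp; omega
  have hC : sz C ≤ M := by
    rw [sz_blocks]
    simp only [C, toBlocks_fromBlocks₁₁, toBlocks_fromBlocks₁₂, toBlocks_fromBlocks₂₁,
      toBlocks_fromBlocks₂₂, sz_zero]
    omega
  obtain ⟨s, a, hs, ha, hspan⟩ := gens hK C Z h1 h2 hι hC
  have Cpow : ∀ k, C ^ k = fromBlocks (zz A ^ k) 0 0 (zz B ^ k) := fromBlocks_diagonal_pow _ _
  let θ : LL C Z h1 h2 := ⟨C ^ P, (Commute.pow_self C P).eq, by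
    rw [Cpow, ← zz_pow, ← zz_pow]
    exact Sb.blocks.2 ⟨Sb.right.zz, Sb.zero, Sb.zero, Sb.right.zz⟩⟩
  let p : LL C Z h1 h2 := ⟨fromBlocks 1 0 0 0, by simp [C, fromBlocks_multiply],
    Sb.blocks.2 ⟨one1 _, Sb.zero, Sb.zero, Sb.zero⟩⟩
  have zR : zz A * zz (A ^ P * R0) = zz (A ^ P * R0) * zz B := by
    rw [← zz_mul, ← zz_mul, ((Ch.pow A P).trans hch).inter]
  have zS : zz B * zz (S0 * A ^ P) = zz (S0 * A ^ P) * zz A := by
    rw [← zz_mul, ← zz_mul, ← Matrix.mul_assoc, hS0, Matrix.mul_assoc, Matrix.mul_assoc, ← pow_succ,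
      ← pow_succ']
  let φ : LL C Z h1 h2 := ⟨fromBlocks 0 (zz (A ^ P * R0)) (zz (S0 * A ^ P)) 0, by
    simp [C, fromBlocks_multiply, zR, zS],
    Sb.blocks.2 ⟨Sb.zero, Sb.rfl.zz, Sb.rfl.zz, Sb.zero⟩⟩
  have θpow : ∀ k, ((θ ^ k : LL C Z h1 h2) : Matrix _ _ ℤ) =
      fromBlocks (zz A ^ (P * k)) 0 0 (zz B ^ (P * k)) := fun k => by
    rw [← Cpow, pow_mul]; rfl
  have hφ : φ * φ = θ ^ (r + 1 + 1) := by
    refine Subtype.ext ?_
    rw [θpow]
    simp [φ, fromBlocks_multiply, ← zz_mul, q1', q2', zz_pow]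
  have hpφ : p * φ = φ * (1 - p) := by
    refine Subtype.ext ?_
    simp only [p, φ, Subring.coe_mul, AddSubgroupClass.coe_sub, OneMemClass.coe_one]
    rw [mul_sub, mul_one]
    ext (u | u) (v | v) <;> simp [fromBlocks_multiply]
  have com : ∀ x : LL C Z h1 h2, x.1.toBlocks₁₁ * zz A = zz A * x.1.toBlocks₁₁ ∧
      x.1.toBlocks₁₂ * zz B = zz A * x.1.toBlocks₁₂ ∧
      x.1.toBlocks₂₁ * zz A = zz B * x.1.toBlocks₂₁ := fun x => by
    have e : x.1 * C = C * x.1 := x.2.1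
    have e1 := congrArg toBlocks₁₁ e
    have e2 := congrArg toBlocks₁₂ e
    have e3 := congrArg toBlocks₂₁ e
    simp only [t11, t12, t21, C, toBlocks_fromBlocks₁₁, toBlocks_fromBlocks₁₂,
      toBlocks_fromBlocks₂₁, toBlocks_fromBlocks₂₂, Matrix.mul_zero, Matrix.zero_mul, add_zero,
      zero_add] at e1 e2 e3
    exact ⟨e1, e2, e3⟩
  have θ11 : ∀ k (x : LL C Z h1 h2), (θ ^ k * x).1.toBlocks₁₁ = zz A ^ (P * k) * x.1.toBlocks₁₁ :=
    fun k x => by rw [Subring.coe_mul, t11, θpow]; simp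
  have θ12 : ∀ k (x : LL C Z h1 h2), (θ ^ k * x).1.toBlocks₁₂ = zz A ^ (P * k) * x.1.toBlocks₁₂ :=
    fun k x => by rw [Subring.coe_mul, t12, θpow]; simp
  have dia : ∀ x : LL C Z h1 h2, x * p = p * x → x.1.toBlocks₁₂ = 0 ∧ x.1.toBlocks₂₁ = 0 :=
    fun x h => by
      have e : x.1 * fromBlocks 1 0 0 0 = fromBlocks 1 0 0 0 * x.1 := congrArg Subtype.val h
      have e2 := congrArg toBlocks₁₂ e
      have e3 := congrArg toBlocks₂₁ e
      simp only [t12, t21, toBlocks_fromBlocks₁₁, toBlocks_fromBlocks₁₂,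
        toBlocks_fromBlocks₂₁, toBlocks_fromBlocks₂₂, Matrix.mul_zero, Matrix.zero_mul, add_zero,
        Matrix.mul_one, Matrix.one_mul] at e2 e3
      exact ⟨e2.symm, e3⟩
  have off : ∀ x : LL C Z h1 h2, p * x = x * (1 - p) → x.1.toBlocks₁₁ = 0 ∧ x.1.toBlocks₂₂ = 0 :=
    fun x h => by
      rw [mul_sub, mul_one, eq_sub_iff_add_eq] at h
      have e : fromBlocks 1 0 0 0 * x.1 + x.1 * fromBlocks 1 0 0 0 = x.1 := congrArg Subtype.val h
      rw [← fromBlocks_toBlocks x.1] at e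
      simp only [fromBlocks_multiply, fromBlocks_add, fromBlocks_inj, Matrix.mul_zero,
        Matrix.zero_mul, add_zero, Matrix.mul_one, Matrix.one_mul] at e
      exact ⟨by simpa using e.1, e.2.2.2.symm⟩
  have zse : ∀ (x x' : LL C Z h1 h2) k, Un θ x x' k → x * p = p * x → x' * p = p * x' →
      ZSE A A x.1.toBlocks₁₁ x'.1.toBlocks₁₁ (P * k) := fun x x' k h hx hx' => by
    have e1 := congrArg (fun z : LL C Z h1 h2 => z.1.toBlocks₁₁) h.1
    have e2 := congrArg (fun z : LL C Z h1 h2 => z.1.toBlocks₁₁) h.2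
    simp only [Subring.coe_mul, t11, θpow, (dia x hx).1, (dia x' hx').1, Matrix.zero_mul, add_zero,
      toBlocks_fromBlocks₁₁] at e1 e2
    exact ⟨(com x).1.symm, (com x').1, e1, e2⟩
  obtain ⟨ψ, ψ', j, hψ, hp1, hp2, b1, b2, b3, -, hH⟩ := hE _ _ θ p s a
    (fun x => (∃ c, zz A ^ c * x.1.toBlocks₁₂ = 0) ∧ Real A A x.1.toBlocks₁₁)
    (fun x => col x.1.toBlocks₁₁)
    (M + FK ((M * M + M * M) * (M * M * (M + M + 1) + 1)) + (M + 1) ^ (P + 1) +
      (g (M + M * (M * (M + 1) ^ (M + 1))) + 1) ^ (M + 1) ^ (M + 2))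
    (by omega) (by omega) (fun i => (ha i).trans (by omega))
    ((sz_pow_le C hι hC le_rfl).trans (by omega))
    (by
      rw [sz_blocks]
      simp only [p, toBlocks_fromBlocks₁₁, toBlocks_fromBlocks₁₂, toBlocks_fromBlocks₂₁,
        toBlocks_fromBlocks₂₂, sz_zero, sz_one, Fintype.card_fin]
      omega)
    hspan (fun x => Subtype.ext (Commute.pow_left x.2.1.symm P).eq)
    (Subtype.ext (by simp [p, fromBlocks_multiply]))
    (by
      rintro x y ⟨⟨c, hc⟩, hx⟩ ⟨⟨d, hd⟩, hy⟩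
      refine ⟨⟨c + d, ?_⟩, (hx.trans hy).of_eq (a := c) (b := c) ?_⟩
      · rw [Subring.coe_mul, t12, Matrix.mul_add, ← Matrix.mul_assoc, ← Matrix.mul_assoc,
          ← H12.pow_inter' (com x).1, Matrix.mul_assoc, pow_add, Matrix.mul_assoc, hd, ← pow_add,
          add_comm c, pow_add, Matrix.mul_assoc (zz A ^ d), hc]
        simp
      · rw [Subring.coe_mul, t11, Matrix.mul_add, ← Matrix.mul_assoc _ x.1.toBlocks₁₂, hc]
        simp)
    (by
      rintro x y c d h ⟨⟨e, he⟩, hx⟩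
      refine ⟨⟨e + P * d, ?_⟩, hx.of_eq (a := P * d) (b := P * c) ?_⟩
      · rw [pow_add, Matrix.mul_assoc, ← θ12, ← h, θ12, ← Matrix.mul_assoc, ← pow_add, add_comm,
          pow_add, Matrix.mul_assoc, he, Matrix.mul_zero]
      · rw [← θ11, ← h, θ11])
    (fun x => (hcol _).trans_le (by omega))
    (by
      intro x x' k y y' j hx hy px px' py py' hc
      refine ⟨⟨0, ?_⟩, ?_⟩
      · rw [Subring.coe_mul, t12, (dia x px).1, (dia y' py').1]; simp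
      · rw [Subring.coe_mul, t11, (dia x px).1, Matrix.zero_mul, add_zero]
        exact hcol' _ _ _ _ _ _ (zse _ _ _ hx px px') (zse _ _ _ hy py py')
          (Sb.blocks.1 x.2.2).1 (Sb.blocks.1 x'.2.2).1 (Sb.blocks.1 y.2.2).1
          (Sb.blocks.1 y'.2.2).1 hc)
    φ φ _ ⟨hφ, hφ⟩ hpφ hpφ
  have e1 := congrArg (fun z : LL C Z h1 h2 => z.1.toBlocks₁₁) hψ.1
  have e2 := congrArg (fun z : LL C Z h1 h2 => z.1.toBlocks₂₂) hψ.2
  simp only [Subring.coe_mul, t11, t22, θpow, (off ψ hp1).1, (off ψ' hp2).2, Matrix.zero_mul,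
    add_zero, zero_add, toBlocks_fromBlocks₁₁, toBlocks_fromBlocks₂₂] at e1 e2
  have θ21 : (θ * ψ').1.toBlocks₂₁ = zz B ^ P * ψ'.1.toBlocks₂₁ := by
    rw [Subring.coe_mul, t21]
    simp [θ, Cpow]
  have sR : Sb ψ.1.toBlocks₁₂ (A ^ P * R0) := (Sb.blocks.1 ψ.2.2).2.1
  have sS : Sb (θ * ψ').1.toBlocks₂₁ (S0 * A ^ P) := (Sb.blocks.1 (θ * ψ').2.2).2.2.1
  have iψ : ∀ k, zz A ^ k * ψ.1.toBlocks₁₂ = ψ.1.toBlocks₁₂ * zz B ^ k :=
    H12.pow_inter (com ψ).2.1.symm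
  refine ⟨ψ.1.toBlocks₁₂, (θ * ψ').1.toBlocks₂₁, P * (j + 1),
    ⟨(com ψ).2.1.symm, (com _).2.2, ?_, ?_⟩, Nat.mul_pos hP1 (Nat.succ_pos _), hfac.mul_right _,
    fun i => ⟨?_, ?_⟩, ?_, ?_⟩
  · rw [θ21, ← Matrix.mul_assoc, ← iψ, Matrix.mul_assoc, e1, ← pow_add]; congr 1; ring
  · rw [θ21, Matrix.mul_assoc, e2, ← pow_add]; congr 1; ring
  · refine ((sR.ab.mul Sb.rfl).mul sS.ab).trans ?_
    rw [q1]; exact sA _ _ _
  · refine ((sS.ab.mul Sb.rfl).mul sR.ab).trans ?_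
    rw [q2]; exact sB _ _ _
  · rw [Subring.coe_mul, t11, (off ψ hp1).1, Matrix.zero_mul, zero_add] at hH
    refine (hH.trans ((Ch.pow A P).trans hch).real).of_eq (a := P * (r + 1 + 1)) (b := 0) ?_
    simp only [φ, toBlocks_fromBlocks₂₁]
    rw [pow_zero, Matrix.one_mul, Matrix.mul_assoc, ← zz_mul, q2', zz_pow, iψ]
  · have a1 := sz_blocks ψ.1
    have a2 := sz_blocks (θ * ψ').1
    have a3 : sz (θ * ψ').1 ≤ _ := (sz_mul θ.1 ψ'.1).trans
      (Nat.mul_le_mul ((sz_pow_le C hι hC le_rfl).trans (by omega :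
        (M + 1) ^ (P + 1) ≤ M + FK ((M * M + M * M) * (M * M * (M + M + 1) + 1)) +
          (M + 1) ^ (P + 1) + (g (M + M * (M * (M + 1) ^ (M + 1))) + 1) ^ (M + 1) ^ (M + 2))) b2)
    have a4 := Nat.mul_le_mul_left P (Nat.succ_le_succ b3)
    simp only [Nat.succ_eq_add_one] at a4
    omega

end Pool.Agent.MP_993212_an.H35
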