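import Pool.Agent.MP_993212_an.H46.Spec

/-! Supports, stabilisation of supports of powers, blocks, and the colouring of automorphisms. -/

namespace Pool.Agent.MP_993212_an.H35

open Matrix H16 H46

section Sb

variable {l m n : Type} {α : Type}

/-- the support of `X` lies in the support of `Y` -/
def Sb [Zero α] (X : Matrix m n α) (Y : Matrix m n ℕ) : Prop := ∀ u v, X u v ≠ 0 → Y u v ≠ 0

theorem Sb.rfl {X : Matrix m n ℕ} : Sb X X := fun _ _ h => h

theorem Sb.trans [Zero α] {X : Matrix m n α} {Y Z : Matrix m n ℕ} (h : Sb X Y) (h' : Sb Y Z) :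
    Sb X Z := fun u v hx => h' u v (h u v hx)

theorem Sb.mul [Semiring α] [Fintype m] {X : Matrix l m α} {Y : Matrix m n α} {X' : Matrix l m ℕ}
    {Y' : Matrix m n ℕ} (h : Sb X X') (h' : Sb Y Y') : Sb (X * Y) (X' * Y') := by
  intro u v hx
  rw [Matrix.mul_apply] at hx ⊢
  obtain ⟨w, -, hw⟩ := Finset.exists_ne_zero_of_sum_ne_zero hx
  intro h0
  rw [Finset.sum_eq_zero_iff] at h0
  exact mul_ne_zero (h u w (left_ne_zero_of_mul hw)) (h' w v (right_ne_zero_of_mul hw))
    (h0 w (Finset.mem_univ w))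

theorem Sb.add [AddMonoid α] {X Y : Matrix m n α} {Z : Matrix m n ℕ} (h : Sb X Z) (h' : Sb Y Z) :
    Sb (X + Y) Z := fun u v hx => by
  by_cases h0 : X u v = 0
  · exact h' u v fun h1 => hx (by rw [Matrix.add_apply, h0, h1, add_zero])
  · exact h u v h0

theorem Sb.left {X Y : Matrix m n ℕ} : Sb X (X + Y) := fun _ _ hx h0 =>
  hx (Nat.eq_zero_of_add_eq_zero_right h0)

theorem Sb.right {X Y : Matrix m n ℕ} : Sb Y (X + Y) := fun _ _ hx h0 =>
  hx (Nat.eq_zero_of_add_eq_zero_left h0)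

theorem Sb.zero [Zero α] {Z : Matrix m n ℕ} : Sb (0 : Matrix m n α) Z := fun _ _ h => absurd (Eq.refl _) h

theorem Sb.ab {X : Matrix m n ℤ} {Y : Matrix m n ℕ} (h : Sb X Y) : Sb (ab X) Y :=
  fun u v hx => h u v fun h0 => hx (by simp [H46.ab, h0])

theorem Sb.zz {X Y : Matrix m n ℕ} (h : Sb X Y) : Sb (zz X) Y :=
  fun u v hx => h u v fun h0 => hx (by simp [zz_apply, h0])

theorem Sb.blocks [Zero α] {X : Matrix (m ⊕ n) (m ⊕ n) α} {A : Matrix m m ℕ} {B : Matrix m n ℕ}
    {C : Matrix n m ℕ} {D : Matrix n n ℕ} :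
    Sb X (fromBlocks A B C D) ↔
      Sb X.toBlocks₁₁ A ∧ Sb X.toBlocks₁₂ B ∧ Sb X.toBlocks₂₁ C ∧ Sb X.toBlocks₂₂ D := by
  refine ⟨fun h => ⟨fun u v => h (.inl u) (.inl v), fun u v => h (.inl u) (.inr v),
    fun u v => h (.inr u) (.inl v), fun u v => h (.inr u) (.inr v)⟩, ?_⟩
  rintro ⟨h1, h2, h3, h4⟩ (u | u) (v | v)
  exacts [h1 u v, h2 u v, h3 u v, h4 u v]

end Sb

section Stab

variable {U V W : Type} [Fintype U] [DecidableEq U] [Fintype V] [DecidableEq V] [Fintype W]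
  [DecidableEq W]

/-- the supports of the powers have period `P` from `P` on -/
def Stab (A : Matrix V V ℕ) (P : ℕ) : Prop :=
  ∀ k l i, Sb (A ^ (P * (k + 1) + i)) (A ^ (P * (l + 1) + i))

theorem stab (A : Matrix V V ℕ) {D : ℕ} (hD : Fintype.card V ≤ D) :
    Stab A (2 ^ (D * D)).factorial := by
  have key : ∃ i t, 0 < t ∧ i + t ≤ 2 ^ (D * D) ∧ Sb (A ^ i) (A ^ (i + t)) ∧
      Sb (A ^ (i + t)) (A ^ i) := by
    obtain ⟨i, j, hij, h⟩ := Fintype.exists_ne_map_eq_of_card_lt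
      (fun i : Fin (2 ^ (D * D) + 1) =>
        Finset.univ.filter fun p : V × V => (A ^ (i : ℕ)) p.1 p.2 ≠ 0) (by
        rw [Fintype.card_finset, Fintype.card_prod, Fintype.card_fin]
        exact Nat.lt_succ_of_le (Nat.pow_le_pow_right two_pos (Nat.mul_le_mul hD hD)))
    have h' : ∀ u v, (A ^ (i : ℕ)) u v ≠ 0 ↔ (A ^ (j : ℕ)) u v ≠ 0 := fun u v => by
      simpa using Finset.ext_iff.1 h (u, v)
    have hi := i.2
    have hj := j.2
    rcases lt_or_gt_of_ne (Fin.val_ne_of_ne hij) with hlt | hlt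
    · refine ⟨i, j - i, by omega, by omega, ?_⟩
      rw [show (i : ℕ) + (j - i) = j by omega]
      exact ⟨fun u v => (h' u v).1, fun u v => (h' u v).2⟩
    · refine ⟨j, i - j, by omega, by omega, ?_⟩
      rw [show (j : ℕ) + (i - j) = i by omega]
      exact ⟨fun u v => (h' u v).2, fun u v => (h' u v).1⟩
  obtain ⟨i, t, ht, hit, h1, h2⟩ := key
  have per : ∀ s r, Sb (A ^ (i + s)) (A ^ (i + s + t * r)) ∧
      Sb (A ^ (i + s + t * r)) (A ^ (i + s)) := by
    intro s r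
    induction r with
    | zero => exact ⟨Sb.rfl, Sb.rfl⟩
    | succ r ih =>
      have e1 : A ^ (i + s + t * (r + 1)) = A ^ (i + t) * A ^ (s + t * r) := by
        rw [← pow_add]; congr 1; ring
      have e2 : A ^ (i + s + t * r) = A ^ i * A ^ (s + t * r) := by rw [← pow_add, add_assoc]
      rw [e1]
      rw [e2] at ih
      exact ⟨ih.1.trans (h1.mul Sb.rfl), (h2.mul Sb.rfl).trans ih.2⟩
  obtain ⟨c, hc⟩ : t ∣ (2 ^ (D * D)).factorial := Nat.dvd_factorial ht (by omega)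
  have hle := Nat.self_le_factorial (2 ^ (D * D))
  generalize (2 ^ (D * D)).factorial = P at hc hle
  obtain ⟨s, hs⟩ : ∃ s, P = i + s := ⟨P - i, by omega⟩
  intro k l j
  have e : ∀ k, P * (k + 1) + j = i + (s + j) + t * (c * k) := fun k => by
    rw [← mul_assoc, ← hc, mul_add, mul_one, ← add_assoc, ← hs]; ring
  rw [e k, e l]
  exact (per _ _).2.trans (per _ _).1

theorem Stab.sb {A : Matrix V V ℕ} {P : ℕ} (h : Stab A P) (k : ℕ) :
    Sb (A ^ (P * (k + 1))) (A ^ P) := by simpa using h k 0 0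

theorem Stab.absorb {A : Matrix V V ℕ} {P : ℕ} (h : Stab A P) :
    Sb (A ^ P * (1 + A ^ P)) (A ^ P) := by
  rw [mul_add, mul_one, ← pow_add]
  exact Sb.rfl.add (by simpa [mul_two] using h.sb 1)

theorem Stab.absorb' {A : Matrix V V ℕ} {P : ℕ} (h : Stab A P) :
    Sb ((1 + A ^ P) * A ^ P) (A ^ P) := by
  rw [add_mul, one_mul, ← pow_add]
  exact Sb.rfl.add (by simpa [mul_two] using h.sb 1)

/-- the level does not decrease along the support -/
def Mon {α : Type} [Zero α] (x : V → ℕ) (M : Matrix V V α) : Prop :=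
  ∀ u v, M u v ≠ 0 → x u ≤ x v

omit [DecidableEq V] in
theorem Mon.mul {α : Type} [Semiring α] {x : V → ℕ} {M N : Matrix V V α} (h : Mon x M)
    (h' : Mon x N) : Mon x (M * N) := fun u v hx => by
  rw [Matrix.mul_apply] at hx
  obtain ⟨w, -, hw⟩ := Finset.exists_ne_zero_of_sum_ne_zero hx
  exact (h u w (left_ne_zero_of_mul hw)).trans (h' w v (right_ne_zero_of_mul hw))

omit [Fintype V] in
theorem Mon.one {α : Type} [Semiring α] {x : V → ℕ} : Mon x (1 : Matrix V V α) := fun u v hx => by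
  by_cases h : u = v
  · rw [h]
  · exact absurd (Matrix.one_apply_ne h) hx

theorem Mon.pow {α : Type} [Semiring α] {x : V → ℕ} {M : Matrix V V α} (h : Mon x M) (k : ℕ) :
    Mon x (M ^ k) := by
  induction k with
  | zero => rw [pow_zero]; exact Mon.one
  | succ k ih => rw [pow_succ]; exact ih.mul h

omit [DecidableEq V] [DecidableEq U] in
theorem blk_mul {α : Type} [Semiring α] {x : V → ℕ} {c : ℕ} {f : U → V}
    (hf : Function.Injective f) (hc : ∀ u, x u = c ↔ ∃ i, f i = u) {M N : Matrix V V α}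
    (h : Mon x M) (h' : Mon x N) :
    (M * N).submatrix f f = M.submatrix f f * N.submatrix f f := by
  classical
  ext i j
  simp only [Matrix.submatrix_apply, Matrix.mul_apply]
  symm
  refine Finset.sum_of_injOn f (hf.injOn) (fun _ _ => Finset.mem_univ _) (fun w _ hw => ?_)
    fun _ _ => rfl
  by_contra h0
  have h1 := h _ _ (left_ne_zero_of_mul h0)
  have h2 := h' _ _ (right_ne_zero_of_mul h0)
  rw [(hc _).2 ⟨i, rfl⟩] at h1
  rw [(hc _).2 ⟨j, rfl⟩] at h2
  obtain ⟨k, hk⟩ := (hc w).1 (le_antisymm h2 h1)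
  exact hw ⟨k, by simp, hk⟩

theorem blk_pow {α : Type} [Semiring α] {x : V → ℕ} {c : ℕ} {f : U → V}
    (hf : Function.Injective f) (hc : ∀ u, x u = c ↔ ∃ i, f i = u) {M : Matrix V V α}
    (h : Mon x M) (k : ℕ) : (M ^ k).submatrix f f = M.submatrix f f ^ k := by
  induction k with
  | zero => simpa using Matrix.submatrix_one f hf
  | succ k ih => rw [pow_succ, pow_succ, blk_mul hf hc (h.pow k) h, ih]

theorem prim_ne [Nonempty V] {D : Matrix V V ℕ} (h : Prim D) (k : ℕ) : ∃ i j, (D ^ k) i j ≠ 0 := by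
  obtain ⟨e, he, h⟩ := h
  have h1 : ∀ r i j, 0 < (D ^ (e * (r + 1))) i j := by
    intro r
    induction r with
    | zero => simpa using h
    | succ r ih =>
      intro i j
      rw [mul_add, mul_one, pow_add, Matrix.mul_apply]
      exact Finset.sum_pos (fun w _ => mul_pos (ih i w) (h w j)) Finset.univ_nonempty
  by_contra hc
  push Not at hc
  have h2 : D ^ k = 0 := Matrix.ext hc
  obtain ⟨s, hs⟩ : ∃ s, e * (k + 1) = k + s := ⟨e * (k + 1) - k, by
    have := Nat.mul_le_mul_right (k + 1) he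
    omega⟩
  have h3 := h1 k (Classical.arbitrary V) (Classical.arbitrary V)
  rw [hs, pow_add, h2, Matrix.zero_mul] at h3
  exact lt_irrefl _ h3

theorem real_reindex {D : Matrix V V ℕ} {M : Matrix V V ℤ} (h : Real D D M) (τ : W ≃ V) :
    Real D (D.submatrix τ τ) (M.submatrix id τ) := by
  have h1 := Real.step ((1 : Matrix V V ℕ).submatrix id τ) (D.submatrix τ id)
  rw [submatrix_mul_equiv, Matrix.one_mul, submatrix_id_id] at h1
  have e : D.submatrix τ id * (1 : Matrix V V ℕ).submatrix id τ = D.submatrix τ τ := by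
    have := submatrix_mul_equiv D (1 : Matrix V V ℕ) τ (Equiv.refl V) τ
    rw [Matrix.mul_one] at this
    exact this
  rw [e] at h1
  have h2 := h.trans h1
  have e2 : M * zz ((1 : Matrix V V ℕ).submatrix id τ) = M.submatrix id τ := by
    have e3 : zz ((1 : Matrix V V ℕ).submatrix id τ) = (zz (1 : Matrix V V ℕ)).submatrix id τ := rfl
    rw [e3, zz_one]
    have := submatrix_mul_equiv M (1 : Matrix V V ℤ) id (Equiv.refl V) τ
    rw [Matrix.mul_one] at this
    exact this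
  rwa [e2] at h2

end Stab

theorem encode {I α : Type} [Fintype I] (c : I → α → ℕ) (G : ℕ) (h : ∀ i x, c i x < G) :
    ∃ col : α → ℕ, (∀ x, col x < G ^ Fintype.card I) ∧
      ∀ x y, col x = col y → ∀ i, c i x = c i y := by
  classical
  refine ⟨fun x => (Fintype.equivFin (I → Fin G) fun i => ⟨c i x, h i x⟩ : ℕ), fun x => ?_,
    fun x y e i => ?_⟩
  · have := (Fintype.equivFin (I → Fin G) fun i => ⟨c i x, h i x⟩).2
    simpa using this
  · have := (Fintype.equivFin (I → Fin G)).injective (Fin.ext e)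
    simpa using congrFun this i

theorem sz_pow_le {V : Type} [Fintype V] [DecidableEq V] (R : Matrix V V ℤ) {M k K : ℕ}
    (h1 : Fintype.card V ≤ M) (h2 : sz R ≤ M) (hk : k ≤ K) : sz (R ^ k) ≤ (M + 1) ^ (K + 1) := by
  have h3 : sz R ^ k ≤ (M + 1) ^ K :=
    (Nat.pow_le_pow_left (by omega) k).trans (Nat.pow_le_pow_right (by omega) hk)
  refine (sz_pow R k).trans ?_
  rw [pow_succ]
  nlinarith [Nat.mul_le_mul h1 h3]

theorem colour (hB : B2) {g : ℕ → ℕ} (hg : Monotone g)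
    (h2 : ∀ (n : ℕ) (D : Matrix (Fin n) (Fin n) ℕ), 0 < n → Prim D →
      ∃ col : Matrix (Fin n) (Fin n) ℤ → ℕ, (∀ x, col x < g (n + sz (zz D))) ∧
        ∀ x x' k y y' j, ZSE D D x x' k → ZSE D D y y' j → col x = col y → Real D D (x * y'))
    {n : ℕ} (A : Matrix (Fin n) (Fin n) ℕ) {P : ℕ} (hP : Stab A P) (hP1 : 1 ≤ P)
    (hfac : n.factorial ∣ P) {M : ℕ} (hn : n ≤ M) (hs : sz (zz A) ≤ M) :
    ∃ col : MZ n → ℕ,
      (∀ x, col x < (g (M + M * (M * (M + 1) ^ (M + 1))) + 1) ^ (M + 1) ^ (M + 2)) ∧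
      ∀ x x' k y y' j, ZSE A A x x' (P * k) → ZSE A A y y' (P * j) → Sb x (1 + A ^ P) →
        Sb x' (1 + A ^ P) → Sb y (1 + A ^ P) → Sb y' (1 + A ^ P) → col x = col y →
        Real A A (x * y') := by
  have hc : ∀ i : (Σ a : Fin (n + 1), Fin (n + 1) × (Fin a → Fin n)), ∃ c : MZ n → ℕ,
      (∀ x, c x < g (M + M * (M * (M + 1) ^ (M + 1))) + 1) ∧
      (0 < (i.1 : ℕ) → Prim ((A ^ (i.2.1 : ℕ)).submatrix i.2.2 i.2.2) → ∀ (x y : MZ n) x' k y' j,
        ZSE ((A ^ (i.2.1 : ℕ)).submatrix i.2.2 i.2.2) ((A ^ (i.2.1 : ℕ)).submatrix i.2.2 i.2.2)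
          (x.submatrix i.2.2 i.2.2) x' k →
        ZSE ((A ^ (i.2.1 : ℕ)).submatrix i.2.2 i.2.2) ((A ^ (i.2.1 : ℕ)).submatrix i.2.2 i.2.2)
          (y.submatrix i.2.2 i.2.2) y' j → c x = c y →
        Real ((A ^ (i.2.1 : ℕ)).submatrix i.2.2 i.2.2) ((A ^ (i.2.1 : ℕ)).submatrix i.2.2 i.2.2)
          (x.submatrix i.2.2 i.2.2 * y')) := by
    rintro ⟨a, q, f⟩
    by_cases hp : 0 < (a : ℕ) ∧ Prim ((A ^ (q : ℕ)).submatrix f f)
    · obtain ⟨c, hc1, hc2⟩ := h2 a _ hp.1 hp.2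
      refine ⟨fun x => c (x.submatrix f f), fun x => (hc1 _).trans_le ((hg ?_).trans (Nat.le_succ _)),
        fun _ _ x y x' k y' j => hc2 _ _ _ _ _ _⟩
      have ha : (a : ℕ) ≤ M := by have := a.2; omega
      have hq : (q : ℕ) ≤ M := by have := q.2; omega
      have h3 := sz_pow_le (zz A) (by simpa using hn) hs hq
      have h4 : sz (zz ((A ^ (q : ℕ)).submatrix f f)) ≤ _ :=
        sz_le_of (c := (M + 1) ^ (M + 1)) fun i j => by
          rw [← zz_pow] at h3
          exact (le_sz (zz (A ^ (q : ℕ))) (f i) (f j)).trans h3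
      rw [Fintype.card_fin] at h4
      exact Nat.add_le_add ha (h4.trans (Nat.mul_le_mul ha (Nat.mul_le_mul_right _ ha)))
    · exact ⟨fun _ => 0, fun _ => Nat.succ_pos _, fun h h' => absurd ⟨h, h'⟩ hp⟩
  choose c hc1 hc2 using hc
  obtain ⟨col, hcol, hcol'⟩ := encode c _ hc1
  refine ⟨col, fun x => (hcol x).trans_le (Nat.pow_le_pow_right (Nat.succ_pos _) ?_), ?_⟩
  · rw [Fintype.card_sigma]
    refine (Finset.sum_le_card_nsmul _ _ ((M + 1) * (M + 1) ^ M) fun a _ => ?_).trans ?_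
    · rw [Fintype.card_prod, Fintype.card_fun, Fintype.card_fin, Fintype.card_fin, Fintype.card_fin]
      have ha : (a : ℕ) ≤ M := by have := a.2; omega
      exact Nat.mul_le_mul (by omega)
        ((Nat.pow_le_pow_left (by omega) _).trans (Nat.pow_le_pow_right (by omega) ha))
    · rw [Finset.card_univ, Fintype.card_fin, smul_eq_mul, pow_succ, pow_succ]
      nlinarith [Nat.mul_le_mul_right ((M + 1) * (M + 1) ^ M) (Nat.succ_le_succ hn)]
  intro x x' k y y' j hx hy sx sx' sy sy' hcxy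
  have cx : ∀ r, zz A ^ r * x = x * zz A ^ r := H12.pow_inter hx.1
  have cx' : ∀ r, x' * zz A ^ r = zz A ^ r * x' := H12.pow_inter' hx.2.1
  have cy : ∀ r, zz A ^ r * y = y * zz A ^ r := H12.pow_inter hy.1
  have cy' : ∀ r, y' * zz A ^ r = zz A ^ r * y' := H12.pow_inter' hy.2.1
  have c1 : ∀ r, Commute (zz A ^ r) (x * y') := fun r => Commute.mul_right (cx r) (cy' r).symm
  have c2 : ∀ r, Commute (zz A ^ r) (y * x') := fun r => Commute.mul_right (cy r) (cx' r).symm
  have sR : Sb (zz A ^ P * (x * y')) (A ^ P) := by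
    rw [← zz_pow, ← mul_assoc]
    exact (((Sb.rfl.zz.mul sx).trans hP.absorb).mul sy').trans hP.absorb
  have sS : Sb (zz A ^ P * (y * x')) (A ^ P) := by
    rw [← zz_pow, ← mul_assoc]
    exact (((Sb.rfl.zz.mul sy).trans hP.absorb).mul sx').trans hP.absorb
  have hRS : zz A ^ P * (x * y') * (zz A ^ P * (y * x')) = zz A ^ (P * (k + j + 1 + 1)) := by
    calc _ = zz A ^ P * zz A ^ P * (x * (y' * y) * x') := by
          rw [mul_assoc, ← mul_assoc (x * y'), ← (c1 P).eq]; simp only [mul_assoc]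
      _ = _ := by
          rw [hy.2.2.2, ← cx, mul_assoc (zz A ^ (P * j)), hx.2.2.1, ← pow_add, ← pow_add, ← pow_add]
          congr 1; ring
  have hSR : zz A ^ P * (y * x') * (zz A ^ P * (x * y')) = zz A ^ (P * (k + j + 1 + 1)) := by
    calc _ = zz A ^ P * zz A ^ P * (y * (x' * x) * y') := by
          rw [mul_assoc, ← mul_assoc (y * x'), ← (c2 P).eq]; simp only [mul_assoc]
      _ = _ := by
          rw [hx.2.2.2, ← cy, mul_assoc (zz A ^ (P * k)), hy.2.2.1, ← pow_add, ← pow_add, ← pow_add]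
          congr 1; ring
  have pat : ∀ {R S : MZ n}, Sb R (A ^ P) → Sb S (A ^ P) → ∀ i,
      Sb (ab R * A ^ i * ab S) (A ^ (P * (k + j + 1 + 1) + i)) := fun h1 h2 i => by
    refine ((h1.ab.mul Sb.rfl).mul h2.ab).trans ?_
    rw [← pow_add, ← pow_add, show P + i + P = P * (1 + 1) + i by ring]
    exact hP _ _ _
  have main : Real A A (zz A ^ P * (x * y')) := by
    refine hB n n A A _ (zz A ^ P * (y * x')) (P * (k + j + 1 + 1)) ⟨?_, ?_, hRS, hSR⟩
      (Nat.mul_pos hP1 (by omega)) (hfac.mul_right _) (fun i => ⟨pat sR sS i, pat sS sR i⟩) ?_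
    · exact (Commute.mul_right (Commute.self_pow _ _) (by simpa using c1 1)).eq
    · exact (Commute.mul_right (Commute.self_pow _ _) (by simpa using c2 1)).symm.eq
    rintro q a b f f' hq1 hqn ha hb ⟨hf, hf', pf, pf', x0, y0, c0, ⟨l1, l2, l3, l4⟩, hx0, hy0⟩
    obtain ⟨r, hr⟩ : q ∣ P := (Nat.dvd_factorial hq1 hqn).trans hfac
    have m1 : Mon x0 (A ^ q) := l1
    have m2 : Mon y0 (A ^ q) := l2
    have mP : Mon x0 (A ^ P) := by rw [hr, pow_mul]; exact m1.pow r
    have mP' : Mon y0 (A ^ P) := by rw [hr, pow_mul]; exact m2.pow r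
    have : Nonempty (Fin a) := ⟨⟨0, ha⟩⟩
    obtain ⟨v, hv1, hv2⟩ : ∃ v, x0 v = c0 ∧ y0 v = c0 := by
      obtain ⟨i, i', hi⟩ := prim_ne pf (r * (k + j + 1 + 1))
      rw [← blk_pow hf hx0 m1, ← pow_mul, ← mul_assoc, ← hr, submatrix_apply] at hi
      have hi2 : (zz A ^ (P * (k + j + 1 + 1))) (f i) (f i') ≠ 0 := by
        rw [← zz_pow, zz_apply]; exact_mod_cast hi
      rw [← hRS, Matrix.mul_apply] at hi2
      obtain ⟨v, -, hv⟩ := Finset.exists_ne_zero_of_sum_ne_zero hi2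
      have a1 := l3 _ _ (left_ne_zero_of_mul hv)
      have a2 := l4 _ _ (right_ne_zero_of_mul hv)
      have a3 := mP _ _ (sR _ _ (left_ne_zero_of_mul hv))
      have a4 := mP _ _ (sS _ _ (right_ne_zero_of_mul hv))
      have a5 := (hx0 _).2 ⟨i, rfl⟩
      have a6 := (hx0 _).2 ⟨i', rfl⟩
      exact ⟨v, by omega, by omega⟩
    have inc1 : ∀ i', ∃ i, f i = f' i' := fun i' => by
      obtain ⟨e, -, he⟩ := pf'
      obtain ⟨i0, rfl⟩ := (hy0 v).1 hv2
      rw [← blk_pow hf' hy0 m2] at he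
      have a1 := m1.pow e _ _ (he i0 i').ne'
      have a2 := m1.pow e _ _ (he i' i0).ne'
      exact (hx0 _).1 (by omega)
    have inc2 : ∀ i, ∃ i', f' i' = f i := fun i => by
      obtain ⟨e, -, he⟩ := pf
      obtain ⟨i0, rfl⟩ := (hx0 v).1 hv1
      rw [← blk_pow hf hx0 m1] at he
      have a1 := m2.pow e _ _ (he i0 i).ne'
      have a2 := m2.pow e _ _ (he i i0).ne'
      exact (hy0 _).1 (by omega)
    choose τ hτ using inc1
    have hbij : Function.Bijective τ :=
      ⟨fun i j h => hf' (by rw [← hτ, ← hτ, h]), fun i => by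
        obtain ⟨i', hi'⟩ := inc2 i
        exact ⟨i', hf (by rw [hτ, hi'])⟩⟩
    have han : a < n + 1 := by
      have := Fintype.card_le_of_injective f hf
      simp only [Fintype.card_fin] at this
      omega
    have mon : ∀ {z : MZ n}, Sb z (1 + A ^ P) → Mon x0 z := fun {z} h u v hz => by
      by_cases h0 : (A ^ P) u v = 0
      · exact Mon.one (α := ℕ) u v fun h1 => h u v hz (by rw [Matrix.add_apply, h0, h1])
      · exact mP u v h0
    have mq : Mon x0 (zz A ^ q) := fun u v h => m1 u v fun h0 => h (by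
      rw [← zz_pow, zz_apply, h0]; rfl)
    have eD : zz ((A ^ q).submatrix f f) = (zz A ^ q).submatrix f f := by rw [← zz_pow]; rfl
    have zse : ∀ {z z' : MZ n} {k : ℕ}, ZSE A A z z' (P * k) → Sb z (1 + A ^ P) →
        Sb z' (1 + A ^ P) → ZSE ((A ^ q).submatrix f f) ((A ^ q).submatrix f f)
          (z.submatrix f f) (z'.submatrix f f) (r * k) := fun {z z' k} h s1 s2 => by
      refine ⟨?_, ?_, ?_, ?_⟩
      · rw [eD, ← blk_mul hf hx0 mq (mon s1), ← blk_mul hf hx0 (mon s1) mq, H12.pow_inter h.1]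
      · rw [eD, ← blk_mul hf hx0 mq (mon s2), ← blk_mul hf hx0 (mon s2) mq, H12.pow_inter' h.2.1]
      · rw [eD, ← blk_mul hf hx0 (mon s1) (mon s2), h.2.2.1, ← blk_pow hf hx0 mq, ← pow_mul,
          ← mul_assoc, ← hr]
      · rw [eD, ← blk_mul hf hx0 (mon s2) (mon s1), h.2.2.2, ← blk_pow hf hx0 mq, ← pow_mul,
          ← mul_assoc, ← hr]
    have r1 := hc2 ⟨⟨a, han⟩, ⟨q, by omega⟩, f⟩ ha pf x y _ _ _ _ (zse hx sx sx') (zse hy sy sy')
      (hcol' x y hcxy _)
    have r2 : Real ((A ^ q).submatrix f f) ((A ^ q).submatrix f f)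
        ((zz A ^ P * (x * y')).submatrix f f) := by
      refine Real.of_eq r1 (a := 0) (b := r) ?_
      rw [pow_zero, Matrix.one_mul, eD, ← blk_pow hf hx0 mq, ← blk_mul hf hx0 (mon sx) (mon sy'),
        ← blk_mul hf hx0 (mq.pow r) ((mon sx).mul (mon sy')), ← pow_mul, ← hr]
    have r3 := real_reindex r2 (Equiv.ofBijective τ hbij)
    have e : f' = f ∘ τ := funext fun i => (hτ i).symm
    rw [e]
    exact r3
  exact main.of_eq (a := P) (b := 0) (by simp)

end Pool.Agent.MP_993212_an.H35
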